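import Pool.Agent.H614R3.GolombStage

/-!
# Urysohn-quasi-minimal points in a represented Hausdorff space (`MP_4f977f_lc`, Q1: yes)

The space is the countable power of the Golomb space (the positive integers with the coprime
residue classes as a basis).
-/

namespace Pool.Agent.Results.MP_4f977f_lc.UrysohnQuasiMinimal

open Pool.Agent.H614R3.Golomb Set Topology

universe u

/-- There is a represented Hausdorff space `X` such that for every countable family of represented
Urysohn (`T₂.₅`) spaces `Y i`, every nonempty open subset of `X` contains a point which is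
`Y i`-quasi-minimal for all `i` at once. -/
theorem result :
    ∃ (X : Type) (_ : TopologicalSpace X) (_ : T2Space X) (β : ℕ → Set X),
      IsRepresentation β ∧
      ∀ (Y : ℕ → Type u) [∀ i, TopologicalSpace (Y i)] [∀ i, T25Space (Y i)]
        (γ : ∀ i, ℕ → Set (Y i)), (∀ i, IsRepresentation (γ i)) →
        ∀ U : Set X, IsOpen U → U.Nonempty →
          ∃ x ∈ U, ∀ i, QuasiMinimal (γ i) (Nbase β x) := by
  refine ⟨GP, inferInstance, inferInstance, gβ, gβ_rep, ?_⟩
  intro Y _ _ γ hγ U hU hUne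
  obtain ⟨x, hx⟩ := hUne
  obtain ⟨e, hxe, heU⟩ := exists_Box gβ_rep hU hx
  haveI := countable_CE
  let P : ((ℕ × {Φ : Set ℕ // CE Φ}) ⊕ {W : Set ℕ // CE W}) → GP → Prop := fun t z =>
    Sum.elim (fun p : ℕ × {Φ : Set ℕ // CE Φ} => ∀ y : Y p.1,
        Nbase (γ p.1) y = EnumOp p.2.1 (Nbase gβ z) → CE (Nbase (γ p.1) y))
      (fun W : {W : Set ℕ // CE W} => Nbase gβ z ≠ W.1) t
  have hP : ∀ t, ∀ (s : GP) (k : ℕ), ∃ (s' : GP) (k' : ℕ), Cyl s' k' ⊆ Cyl s k ∧
      ∀ z ∈ Cyl s' k', P t z := by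
    rintro (p | W) s k
    · exact stage (hγ p.1) p.2.2 s k
    · exact stage_avoid W.1 s k
  obtain ⟨z, hz, hzP⟩ := fusion P hP x e
  refine ⟨z, heU (Box_congr (z := x) (fun j hj => (hz j hj).symm) hxe), fun i => ⟨?_, ?_⟩⟩
  · intro hce
    exact hzP (Sum.inr ⟨_, hce⟩) rfl
  · rintro y ⟨Φ, hΦ, hy⟩
    exact hzP (Sum.inl (i, ⟨Φ, hΦ⟩)) y hy

end Pool.Agent.Results.MP_4f977f_lc.UrysohnQuasiMinimal
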